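import Pool.Agent.helper33.QX.SpecA
import Pool.Agent.helper62.QU.CA1
import Pool.Agent.helper42.QU.CA2

set_option autoImplicit false

/-! # Row FEN of project QX: the energy estimate on the upper half plane -/

open scoped MatrixGroups ContDiff Topology UpperHalfPlane
open UpperHalfPlane MeasureTheory Filter Set
open Pool.Agent.QU

namespace Pool.Agent.QX

private lemma FEN_reg (u : ℍ → ℝ) (hu : CD ∞ u) (hs : HasCompactSupport u) :
    Continuous u ∧ (Continuous (dD u) ∧ HasCompactSupport (dD u)) ∧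
      (Continuous (lap u) ∧ HasCompactSupport (lap u)) := by
  obtain ⟨c1, c2, -, -, c5, -, -, -, -, c10⟩ := CA1 ℝ
  have h0 : Continuous u := (c1 u).1 (c2 u 0 ∞ (by exact_mod_cast le_top) hu)
  have h2le : (2 : WithTop ℕ∞) ≤ ∞ := WithTop.coe_le_coe.2 (le_top : (2 : ℕ∞) ≤ ⊤)
  have e11 : ((1 : ℕ) : WithTop ℕ∞) + 1 = 2 := by rw [Nat.cast_one, one_add_one_eq_two]
  have hu2 : CD (((1 : ℕ) : WithTop ℕ∞) + 1) u := by
    rw [e11]
    exact c2 u 2 ∞ h2le hu
  obtain ⟨hX1, hY1⟩ := c5 u 1 hu2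
  have e0 : ((0 : ℕ) : WithTop ℕ∞) + 1 = ((1 : ℕ) : WithTop ℕ∞) := by norm_num
  have hX1' : CD (((0 : ℕ) : WithTop ℕ∞) + 1) (dX u) := by rw [e0]; exact hX1
  have hY1' : CD (((0 : ℕ) : WithTop ℕ∞) + 1) (dY u) := by rw [e0]; exact hY1
  have hXX := (c5 _ 0 hX1').1
  have hYY := (c5 _ 0 hY1').2
  have hY0 : Continuous (dY u) := (c1 _).1 (c2 _ 0 _ (by positivity) hY1)
  have hXX0 : Continuous (dX (dX u)) := (c1 _).1 (by simpa using hXX)
  have hYY0 : Continuous (dY (dY u)) := (c1 _).1 (by simpa using hYY)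
  have sY : HasCompactSupport (dY u) := hs.mono' (subset_closure.trans (c10 u).2)
  have sX : HasCompactSupport (dX u) := hs.mono' (subset_closure.trans (c10 u).1)
  have sXX : HasCompactSupport (dX (dX u)) := sX.mono' (subset_closure.trans (c10 _).1)
  have sYY : HasCompactSupport (dY (dY u)) := sY.mono' (subset_closure.trans (c10 _).2)
  refine ⟨h0, ⟨?_, ?_⟩, ?_, ?_⟩
  · unfold dD
    exact hY0.sub (h0.div_const 2)
  · have e1 : dD u = fun z => dY u z + (-(1 / 2) : ℝ) * u z := by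
      funext z
      unfold dD
      ring
    rw [e1]
    exact sY.add (hs.mul_left (f := fun _ => (-(1 / 2) : ℝ)))
  · have e2 : lap u = fun z => -dX (dX u) z - dY (dY u) z + dY u z := by
      funext z
      exact (CA2 CA1 ℝ u (c2 u 2 ∞ h2le hu) z).2
    rw [e2]
    exact (hXX0.neg.sub hYY0).add hY0
  · have e2 : lap u = fun z => ((-1 : ℝ) * dX (dX u) z + (-1 : ℝ) * dY (dY u) z) + dY u z := by
      funext z
      rw [(CA2 CA1 ℝ u (c2 u 2 ∞ h2le hu) z).2]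
      ring
    rw [e2]
    exact ((sXX.mul_left (f := fun _ => (-1 : ℝ))).add (sYY.mul_left (f := fun _ => (-1 : ℝ)))).add sY

private lemma FEN_sq (hCOO : COO_stmt) (f : ℍ → ℝ) (hf : Continuous f) (hs : HasCompactSupport f) :
    ∫ z : ℍ, f z ^ 2 = ∫ p : ℝ × ℝ, (Real.exp (-p.2 / 2) * f (pt p)) ^ 2 := by
  rw [hCOO (fun z => f z ^ 2) (hf.pow 2) (hs.comp_left (g := fun x : ℝ => x ^ 2) (by norm_num))]
  apply integral_congr_ae
  apply Filter.Eventually.of_forall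
  intro p
  beta_reduce
  rw [mul_pow, ← Real.exp_nat_mul]
  congr 2
  push_cast
  ring

theorem FEN (hFEP : FEP_stmt) (hCOO : COO_stmt) (hCHG : CHG_stmt) (hHV1 : HV1_stmt) : FEN_stmt := by
  intro θ hθ
  obtain ⟨C, hC0, hC⟩ := hFEP θ hθ
  refine ⟨C, hC0, ?_⟩
  intro u μ hμ hu hs
  obtain ⟨hU1, hU2, hU3, hU4⟩ := hCHG.1 u hu hs
  have hHp := hCHG.2
  obtain ⟨r0, ⟨r1, r1'⟩, r2, r2'⟩ := FEN_reg u hu hs
  obtain ⟨v0, v0'⟩ := (hHV1 θ u hθ).1 r0 hs
  obtain ⟨v1, v1'⟩ := (hHV1 θ (dD u) hθ).1 r1 r1'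
  obtain ⟨e1, e2⟩ := hC (fun p : ℝ × ℝ => Real.exp (-p.2 / 2) * u (pt p)) (μ - 1 / 4) (by linarith) hU1 hU2
  -- the norms
  have hpT : pT (fun p : ℝ × ℝ => Real.exp (-p.2 / 2) * u (pt p)) =
      fun p : ℝ × ℝ => Real.exp (-p.2 / 2) * dD u (pt p) := by
    funext p
    exact hU3 p
  have n1 : ∫ p : ℝ × ℝ, pT (fun p : ℝ × ℝ => Real.exp (-p.2 / 2) * u (pt p)) p ^ 2 =
      ∫ z : ℍ, dD u z ^ 2 := by
    rw [FEN_sq hCOO _ r1 r1', hpT]
  have n2 : ∫ p : ℝ × ℝ, GG (μ - 1 / 4) (fun p : ℝ × ℝ => Real.exp (-p.2 / 2) * u (pt p)) p ^ 2 =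
      ∫ z : ℍ, (lap u z - μ * u z) ^ 2 := by
    rw [FEN_sq hCOO (fun z => lap u z - μ * u z) (r2.sub (continuous_const.mul r0))
      (by
        have e3 : (fun z => lap u z - μ * u z) = fun z => lap u z + (-μ) * u z := by
          funext z; ring
        rw [e3]
        exact r2'.add (hs.mul_left (f := fun _ => -μ)))]
    apply integral_congr_ae
    apply Filter.Eventually.of_forall
    intro p
    beta_reduce
    rw [hU4 μ p]
  have n3 : ∫ p : ℝ × ℝ, hp θ (fun p : ℝ × ℝ => Real.exp (-p.2 / 2) * u (pt p)) p ^ 2 =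
      ∫ z : ℍ, hav θ u z ^ 2 := by
    rw [FEN_sq hCOO _ v0 v0']
    apply integral_congr_ae
    apply Filter.Eventually.of_forall
    intro p
    beta_reduce
    rw [hHp θ u p]
  have n4 : ∫ p : ℝ × ℝ, hp θ (pT (fun p : ℝ × ℝ => Real.exp (-p.2 / 2) * u (pt p))) p ^ 2 =
      ∫ z : ℍ, hav θ (dD u) z ^ 2 := by
    rw [FEN_sq hCOO _ v1 v1', hpT]
    apply integral_congr_ae
    apply Filter.Eventually.of_forall
    intro p
    beta_reduce
    rw [hHp θ (dD u) p]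
  have n5 : ∫ p : ℝ × ℝ, ((fun p : ℝ × ℝ => Real.exp (-p.2 / 2) * u (pt p)) p -
      hp θ (fun p : ℝ × ℝ => Real.exp (-p.2 / 2) * u (pt p)) p) ^ 2 =
      ∫ z : ℍ, (u z - hav θ u z) ^ 2 := by
    rw [FEN_sq hCOO (fun z => u z - hav θ u z) (r0.sub v0)
      (by
        have e3 : (fun z => u z - hav θ u z) = fun z => u z + (-1 : ℝ) * hav θ u z := by
          funext z; ring
        rw [e3]
        exact hs.add (v0'.mul_left (f := fun _ => (-1 : ℝ))))]
    apply integral_congr_ae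
    apply Filter.Eventually.of_forall
    intro p
    beta_reduce
    rw [hHp θ u p]
    ring
  rw [n1, n2, n3, n4] at e1
  rw [n1, n2, n5] at e2
  exact ⟨e1, e2⟩

end Pool.Agent.QX
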