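import Pool.Agent.helper4.QX.SpecD
import Pool.Agent.helper62.QU.KER
import Pool.Agent.helper8.QU.SYM
import Pool.Agent.helper62.QU.INV
import Pool.Agent.helper91.QU.DOB

set_option autoImplicit false

/-! # Row AKR of project QX: the kernel `aS` and its forms -/

open scoped MatrixGroups ContDiff Topology UpperHalfPlane
open UpperHalfPlane MeasureTheory ProbabilityTheory Filter Set Polynomial
open Pool.Agent.QU Pool.Agent.RP

namespace Pool.Agent.QX

theorem AKR_integrable {α : Type*} [TopologicalSpace α] [T2Space α] [MeasurableSpace α]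
    [OpensMeasurableSpace α] {E : Type*} [NormedAddCommGroup E] (μ : Measure α)
    [IsFiniteMeasureOnCompacts μ] (g : α → E) (hg : AEStronglyMeasurable g μ) (K : Set α)
    (hK : IsCompact K) (C : ℝ) (h0 : ∀ z, z ∉ K → g z = 0) (hb : ∀ z ∈ K, ‖g z‖ ≤ C) :
    Integrable g μ := by
  have h1 : Integrable (K.indicator (fun _ => C)) μ :=
    (integrable_indicator_iff hK.measurableSet).2 (integrableOn_const hK.measure_ne_top)
  refine h1.mono' hg (Eventually.of_forall fun z => ?_)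
  by_cases hz : z ∈ K
  · rw [indicator_of_mem hz]; exact hb z hz
  · rw [indicator_of_notMem hz, h0 z hz, norm_zero]

section sec

variable {V : Type} [NormedAddCommGroup V] [InnerProductSpace ℂ V] [CompleteSpace V]

/-- the transform `∫ S(z,v) φ(z) dz` -/
noncomputable def AKR_T (S : ℍ → ℍ → ℝ) (φ : ℍ → V) (v : ℍ) : V := ∫ z : ℍ, S z v • φ z

/-- the kernel of the symmetry lemma -/
noncomputable def AKR_G (H : ℍ → ℝ) (S : ℍ → ℍ → ℝ) (φ : ℍ → V) (z v : ℍ) : ℝ :=
  H v * S z v * (inner ℂ (φ z) (AKR_T S φ v)).re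

omit [CompleteSpace V] in
theorem AKR_bound (f : ℍ × ℍ → ℝ) (hf : Continuous f) (K : Set (ℍ × ℍ)) (hK : IsCompact K) :
    ∃ C : ℝ, 0 ≤ C ∧ ∀ p ∈ K, |f p| ≤ C := by
  obtain ⟨C, hC⟩ := hK.exists_bound_of_continuousOn hf.continuousOn
  exact ⟨max C 0, le_max_right _ _, fun p hp => (hC p hp).trans (le_max_left _ _)⟩

omit [CompleteSpace V] in
theorem AKR_i1 (S : ℍ → ℍ → ℝ) (hS : Continuous (Function.uncurry S)) (R : ℝ)
    (hR : ∀ z v, S z v ≠ 0 → dist z v ≤ R) (φ : ℍ → V) (hφ : StronglyMeasurable φ) (m : ℝ)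
    (hm : ∀ z, ‖φ z‖ ≤ m) (v : ℍ) : Integrable (fun z => S z v • φ z) (volume : Measure ℍ) := by
  have hc : Continuous fun z => S z v := hS.comp (by fun_prop : Continuous fun z : ℍ => (z, v))
  obtain ⟨C, hC0, hC⟩ := AKR_bound (Function.uncurry S) hS (Metric.closedBall v R ×ˢ {v})
    ((isCompact_closedBall v R).prod isCompact_singleton)
  refine AKR_integrable volume _ (hc.stronglyMeasurable.smul hφ).aestronglyMeasurable
    (Metric.closedBall v R) (isCompact_closedBall v R) (C * m) ?_ ?_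
  · intro z hz
    by_contra hne
    exact hz (Metric.mem_closedBall.2 (hR z v (left_ne_zero_of_smul hne)))
  · intro z hz
    rw [norm_smul]
    exact mul_le_mul (hC (z, v) ⟨hz, rfl⟩) (hm z) (norm_nonneg _) hC0

omit [CompleteSpace V] in
theorem AKR_Tc (S : ℍ → ℍ → ℝ) (hS : Continuous (Function.uncurry S)) (R : ℝ)
    (hR : ∀ z v, S z v ≠ 0 → dist z v ≤ R) (φ : ℍ → V) (hφ : StronglyMeasurable φ) (m : ℝ)
    (hm : ∀ z, ‖φ z‖ ≤ m) : Continuous (AKR_T S φ) := by
  rw [continuous_iff_continuousAt]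
  intro v₀
  obtain ⟨C, hC0, hC⟩ := AKR_bound (Function.uncurry S) hS
    (Metric.closedBall v₀ (R + 1) ×ˢ Metric.closedBall v₀ 1)
    ((isCompact_closedBall _ _).prod (isCompact_closedBall _ _))
  have hm0 : 0 ≤ m := (norm_nonneg _).trans (hm v₀)
  unfold AKR_T
  apply continuousAt_of_dominated (bound := (Metric.closedBall v₀ (R + 1)).indicator fun _ => C * m)
  · apply Eventually.of_forall
    intro v
    have hc : Continuous fun z => S z v := hS.comp (by fun_prop : Continuous fun z : ℍ => (z, v))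
    exact (hc.stronglyMeasurable.smul hφ).aestronglyMeasurable
  · filter_upwards [Metric.ball_mem_nhds v₀ one_pos] with v hv
    apply Eventually.of_forall
    intro z
    by_cases hz : z ∈ Metric.closedBall v₀ (R + 1)
    · rw [indicator_of_mem hz, norm_smul]
      exact mul_le_mul (hC (z, v) ⟨hz, Metric.ball_subset_closedBall hv⟩) (hm z) (norm_nonneg _) hC0
    · rw [indicator_of_notMem hz]
      have h0 : S z v = 0 := by
        by_contra hne
        apply hz
        have h1 := hR z v hne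
        have h2 := dist_triangle z v v₀
        have h3 := Metric.mem_ball.1 hv
        rw [Metric.mem_closedBall]
        linarith
      rw [h0, zero_smul, norm_zero]
  · exact (integrable_indicator_iff measurableSet_closedBall).2
      (integrableOn_const (isCompact_closedBall _ _).measure_ne_top)
  · apply Eventually.of_forall
    intro z
    have hc : Continuous fun v => S z v := hS.comp (by fun_prop : Continuous fun v : ℍ => (z, v))
    exact (hc.smul continuous_const).continuousAt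

omit [CompleteSpace V] in
theorem AKR_Gm (H : ℍ → ℝ) (hH : Continuous H) (S : ℍ → ℍ → ℝ)
    (hS : Continuous (Function.uncurry S)) (R : ℝ)
    (hR : ∀ z v, S z v ≠ 0 → dist z v ≤ R) (φ : ℍ → V) (hφ : StronglyMeasurable φ) (m : ℝ)
    (hm : ∀ z, ‖φ z‖ ≤ m) : StronglyMeasurable (Function.uncurry (AKR_G H S φ)) := by
  have h1 : Continuous fun p : ℍ × ℍ => H p.2 * S p.1 p.2 := (hH.comp continuous_snd).mul hS
  have h2 : StronglyMeasurable fun p : ℍ × ℍ => inner ℂ (φ p.1) (AKR_T S φ p.2) :=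
    (hφ.comp_measurable measurable_fst).inner
      ((AKR_Tc S hS R hR φ hφ m hm).comp continuous_snd).stronglyMeasurable
  exact h1.stronglyMeasurable.mul (Complex.continuous_re.comp_stronglyMeasurable h2)

omit [CompleteSpace V] in
theorem AKR_Gb (H : ℍ → ℝ) (hH : Continuous H) (S : ℍ → ℍ → ℝ)
    (hS : Continuous (Function.uncurry S)) (R : ℝ)
    (hR : ∀ z v, S z v ≠ 0 → dist z v ≤ R) (φ : ℍ → V) (hφ : StronglyMeasurable φ) (m : ℝ)
    (hm : ∀ z, ‖φ z‖ ≤ m) (K : Set (ℍ × ℍ)) (hK : IsCompact K) :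
    ∃ C : ℝ, 0 ≤ C ∧ ∀ p ∈ K, ‖Function.uncurry (AKR_G H S φ) p‖ ≤ C := by
  obtain ⟨C, hC0, hC⟩ := AKR_bound (fun p : ℍ × ℍ => H p.2 * S p.1 p.2 * ‖AKR_T S φ p.2‖)
    (((hH.comp continuous_snd).mul hS).mul
      ((AKR_Tc S hS R hR φ hφ m hm).comp continuous_snd).norm) K hK
  refine ⟨C * |m|, by positivity, fun p hp => ?_⟩
  have h1 := hC p hp
  rw [abs_mul, abs_norm] at h1
  have h2 : ‖Function.uncurry (AKR_G H S φ) p‖ ≤ |H p.2 * S p.1 p.2| * (‖φ p.1‖ * ‖AKR_T S φ p.2‖) := by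
    show ‖H p.2 * S p.1 p.2 * (inner ℂ (φ p.1) (AKR_T S φ p.2)).re‖ ≤ _
    rw [norm_mul, Real.norm_eq_abs]
    apply mul_le_mul_of_nonneg_left _ (abs_nonneg _)
    exact (Complex.abs_re_le_norm _).trans (norm_inner_le_norm _ _)
  have h3 : ‖φ p.1‖ ≤ |m| := (hm _).trans (le_abs_self m)
  calc _ ≤ |H p.2 * S p.1 p.2| * (‖φ p.1‖ * ‖AKR_T S φ p.2‖) := h2
    _ = (|H p.2 * S p.1 p.2| * ‖AKR_T S φ p.2‖) * ‖φ p.1‖ := by ring
    _ ≤ C * |m| := mul_le_mul h1 h3 (norm_nonneg _) hC0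

theorem AKR_pair (S : ℍ → ℍ → ℝ) (hS : Continuous (Function.uncurry S)) (R : ℝ)
    (hR : ∀ z v, S z v ≠ 0 → dist z v ≤ R) (φ : ℍ → V) (hφ : StronglyMeasurable φ) (m : ℝ)
    (hm : ∀ z, ‖φ z‖ ≤ m) (x : V) (v : ℍ) :
    (inner ℂ x (AKR_T S φ v)).re = ∫ z : ℍ, S z v * (inner ℂ x (φ z)).re := by
  unfold AKR_T
  rw [← KER_L_apply, ← ContinuousLinearMap.integral_comp_comm _ (AKR_i1 S hS R hR φ hφ m hm v)]
  refine integral_congr_ae (Eventually.of_forall fun w => ?_)
  show KER_L x (S w v • φ w) = _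
  rw [map_smul, KER_L_apply, smul_eq_mul]

theorem AKR_eL (H : ℍ → ℝ) (hH : Continuous H) (S : ℍ → ℍ → ℝ)
    (hS : Continuous (Function.uncurry S)) (R : ℝ)
    (hR : ∀ z v, S z v ≠ 0 → dist z v ≤ R) (φ : ℍ → V) (hφ : StronglyMeasurable φ) (m : ℝ)
    (hm : ∀ z, ‖φ z‖ ≤ m) (z : ℍ) :
    (∫ w : ℍ, aS H S z w * (inner ℂ (φ z) (φ w)).re) = ∫ v : ℍ, AKR_G H S φ z v := by
  have e1 : ∀ w : ℍ, aS H S z w * (inner ℂ (φ z) (φ w)).re =
      ∫ v : ℍ, H v * (S z v * S w v) * (inner ℂ (φ z) (φ w)).re := by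
    intro w
    rw [integral_mul_const]
    rfl
  simp_rw [e1]
  rw [integral_integral_swap]
  · refine integral_congr_ae (Eventually.of_forall fun v => ?_)
    simp only [AKR_G]
    rw [AKR_pair S hS R hR φ hφ m hm (φ z) v, ← integral_const_mul]
    refine integral_congr_ae (Eventually.of_forall fun w => ?_)
    simp only
    ring
  · -- `p = (w, v)`
    have hc : Continuous fun p : ℍ × ℍ => H p.2 * (S z p.2 * S p.1 p.2) := by
      refine (hH.comp continuous_snd).mul (Continuous.mul ?_ hS)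
      exact hS.comp (by fun_prop : Continuous fun p : ℍ × ℍ => (z, p.2))
    have hK : IsCompact (Metric.closedBall z (R + R) ×ˢ Metric.closedBall z R) :=
      (isCompact_closedBall _ _).prod (isCompact_closedBall _ _)
    obtain ⟨C, hC0, hC⟩ := AKR_bound _ hc _ hK
    have hme : StronglyMeasurable fun p : ℍ × ℍ =>
        H p.2 * (S z p.2 * S p.1 p.2) * (inner ℂ (φ z) (φ p.1)).re :=
      hc.stronglyMeasurable.mul (Complex.continuous_re.comp_stronglyMeasurable
        (stronglyMeasurable_const.inner (hφ.comp_measurable measurable_fst)))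
    refine AKR_integrable _ _ hme.aestronglyMeasurable _ hK (C * (|m| * |m|)) ?_ ?_
    · rintro ⟨w, v⟩ hp
      by_contra hne
      apply hp
      have h1 := right_ne_zero_of_mul (left_ne_zero_of_mul hne)
      have h2 := hR _ _ (left_ne_zero_of_mul h1)
      have h3 := hR _ _ (right_ne_zero_of_mul h1)
      refine ⟨?_, ?_⟩
      · rw [Metric.mem_closedBall]
        have := dist_triangle w v z
        rw [dist_comm v z] at this
        simp only at *
        linarith
      · rw [Metric.mem_closedBall, dist_comm]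
        exact h2
    · rintro ⟨w, v⟩ hp
      have h1 : |H v * (S z v * S w v)| ≤ C := hC (w, v) hp
      show ‖H v * (S z v * S w v) * (inner ℂ (φ z) (φ w)).re‖ ≤ _
      rw [norm_mul, Real.norm_eq_abs]
      refine mul_le_mul h1 ?_ (norm_nonneg _) hC0
      refine (Complex.abs_re_le_norm _).trans ((norm_inner_le_norm _ _).trans ?_)
      exact mul_le_mul ((hm _).trans (le_abs_self m)) ((hm _).trans (le_abs_self m)) (norm_nonneg _)
        (abs_nonneg _)

theorem AKR_eR (H : ℍ → ℝ) (S : ℍ → ℍ → ℝ)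
    (hS : Continuous (Function.uncurry S)) (R : ℝ)
    (hR : ∀ z v, S z v ≠ 0 → dist z v ≤ R) (φ : ℍ → V) (hφ : StronglyMeasurable φ) (m : ℝ)
    (hm : ∀ z, ‖φ z‖ ≤ m) (v : ℍ) :
    (∫ z : ℍ, AKR_G H S φ z v) = H v * ‖AKR_T S φ v‖ ^ 2 := by
  have e1 : ∀ z : ℍ, AKR_G H S φ z v = H v * (S z v * (inner ℂ (AKR_T S φ v) (φ z)).re) := by
    intro z
    unfold AKR_G
    rw [KER_sym (φ z)]
    ring
  simp_rw [e1]
  rw [integral_const_mul, ← AKR_pair S hS R hR φ hφ m hm _ v]
  congr 1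
  rw [← @inner_self_eq_norm_sq ℂ V _ _ _ (AKR_T S φ v)]
  rfl

end sec

theorem AKR_int (F K : Set ℍ) (hF : MeasurableSet F)
    (hK : IsCompact K) (hFK : F ⊆ K) (G : ℍ → ℍ → ℝ) (hG : StronglyMeasurable (Function.uncurry G))
    (hGb : ∀ K' : Set (ℍ × ℍ), IsCompact K' → ∃ C : ℝ, 0 ≤ C ∧ ∀ p ∈ K', ‖Function.uncurry G p‖ ≤ C)
    (R : ℝ) (hR : ∀ z w, G z w ≠ 0 → dist z w ≤ R) :
    IntegrableOn (Function.uncurry G) (F ×ˢ (univ : Set ℍ))
      ((volume : Measure ℍ).prod (volume : Measure ℍ)) := by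
  have hK' : IsCompact (K ×ˢ Metric.cthickening R K) := hK.prod hK.cthickening
  obtain ⟨C, hC0, hC⟩ := hGb _ hK'
  have h1 : IntegrableOn (Function.uncurry G) (K ×ˢ Metric.cthickening R K)
      ((volume : Measure ℍ).prod (volume : Measure ℍ)) := by
    refine (integrable_indicator_iff hK'.measurableSet).1 ?_
    refine AKR_integrable _ _ (hG.indicator hK'.measurableSet).aestronglyMeasurable _ hK' C ?_ ?_
    · intro z hz
      exact indicator_of_notMem hz _
    · intro z hz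
      rw [indicator_of_mem hz]
      exact hC z hz
  refine IntegrableOn.of_forall_sdiff_eq_zero h1 (hF.prod MeasurableSet.univ) ?_
  rintro ⟨z, w⟩ ⟨⟨hz, -⟩, hzw⟩
  by_contra hne
  apply hzw
  refine ⟨hFK hz, ?_⟩
  refine Metric.mem_cthickening_of_dist_le w z R K (hFK hz) ?_
  rw [dist_comm]
  exact hR z w hne

theorem AKR_sym (Γ : Subgroup SL(2, ℝ)) (F : Set ℍ) (hΓ : SurfaceGroup Γ) (hF : NiceDom Γ F)
    (G : ℍ → ℍ → ℝ) (hG : StronglyMeasurable (Function.uncurry G))
    (hGb : ∀ K' : Set (ℍ × ℍ), IsCompact K' → ∃ C : ℝ, 0 ≤ C ∧ ∀ p ∈ K', ‖Function.uncurry G p‖ ≤ C)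
    (hinv : ∀ (γ : Γ) z w, G (γ • z) (γ • w) = G z w)
    (R : ℝ) (hR : ∀ z w, G z w ≠ 0 → dist z w ≤ R) :
    ∫ z in F, ∫ w : ℍ, G z w = ∫ z in F, ∫ w : ℍ, G w z := by
  obtain ⟨K, hK, hFK⟩ := hF.rel
  obtain ⟨hcount, -⟩ := DOB INV Γ F hΓ hF
  have := hcount
  have : SMulInvariantMeasure Γ ℍ (volume : Measure ℍ) := INV.2.1 Γ
  have : MeasurableConstSMul Γ ℍ := ⟨fun γ => by
    have : Continuous fun z : ℍ => γ • z := continuous_const_smul γ
    exact this.measurable⟩
  have : MeasurableConstSMul Γ (ℍ × ℍ) := ⟨fun γ =>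
    (measurable_const_smul γ).prodMap (measurable_const_smul γ)⟩
  have : SMulInvariantMeasure Γ (ℍ × ℍ)
      ((volume : Measure ℍ).prod (volume : Measure ℍ)) :=
    ⟨fun γ s hs => ((measurePreserving_smul γ (volume : Measure ℍ)).prod
      (measurePreserving_smul γ (volume : Measure ℍ))).measure_preimage hs.nullMeasurableSet⟩
  have e1 : ∫ z in F, ∫ w : ℍ, G z w =
      ∫ x in F ×ˢ (univ : Set ℍ), Function.uncurry G x ∂(volume : Measure ℍ).prod (volume : Measure ℍ) := by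
    rw [setIntegral_prod _ (AKR_int F K hF.meas hK hFK G hG hGb R hR)]
    simp only [Measure.restrict_univ, Function.uncurry_apply_pair]
  have hG' : StronglyMeasurable (Function.uncurry fun z w => G w z) :=
    hG.comp_measurable measurable_swap
  have i2 := AKR_int F K hF.meas hK hFK (fun z w => G w z) hG'
    (fun K' hK' => by
      obtain ⟨C, hC0, hC⟩ := hGb (Prod.swap '' K') (hK'.image continuous_swap)
      exact ⟨C, hC0, fun p hp => hC p.swap ⟨p, hp, rfl⟩⟩) R
    (fun z w h => by rw [dist_comm]; exact hR w z h)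
  have e2 : ∫ z in F, ∫ w : ℍ, G w z =
      ∫ x in F ×ˢ (univ : Set ℍ), (Function.uncurry fun z w => G w z) x
        ∂(volume : Measure ℍ).prod (volume : Measure ℍ) := by
    rw [setIntegral_prod _ i2]
    simp only [Measure.restrict_univ, Function.uncurry_apply_pair]
  have e3 : ∫ x in F ×ˢ (univ : Set ℍ), (Function.uncurry fun z w => G w z) x
        ∂(volume : Measure ℍ).prod (volume : Measure ℍ) =
      ∫ x in (univ : Set ℍ) ×ˢ F, Function.uncurry G x
        ∂(volume : Measure ℍ).prod (volume : Measure ℍ) := by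
    have h5 := (Measure.measurePreserving_swap (μ := (volume : Measure ℍ))
      (ν := (volume : Measure ℍ))).setIntegral_preimage_emb
      (MeasurableEquiv.prodComm.measurableEmbedding) (Function.uncurry G)
      ((univ : Set ℍ) ×ˢ F)
    rw [← h5]
    have e4 : (Prod.swap ⁻¹' ((univ : Set ℍ) ×ˢ F) : Set (ℍ × ℍ)) = F ×ˢ (univ : Set ℍ) := by
      ext ⟨a, b⟩
      simp
    rw [e4]
    rfl
  rw [e1, e2, e3]
  refine (SYM_dom Γ F hF).setIntegral_eq (SYM_dom' Γ F hF) ?_
  rintro γ ⟨z, w⟩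
  exact hinv γ z w

theorem AKR_dist (H : ℍ → ℝ) (S : ℍ → ℍ → ℝ) (R : ℝ)
    (hR : ∀ z v, S z v ≠ 0 → dist z v ≤ R) (z w : ℍ) (hne : aS H S z w ≠ 0) :
    dist z w ≤ 2 * R := by
  by_contra hc
  apply hne
  unfold aS
  rw [integral_eq_zero_of_ae]
  refine Eventually.of_forall fun v => ?_
  by_contra hv
  have h1 := right_ne_zero_of_mul hv
  have h2 := hR _ _ (left_ne_zero_of_mul h1)
  have h3 := hR _ _ (right_ne_zero_of_mul h1)
  have := dist_triangle z v w
  rw [dist_comm v w] at this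
  apply hc
  linarith

theorem AKR_PKer (Γ : Subgroup SL(2, ℝ)) (H : ℍ → ℝ) (S : ℍ → ℍ → ℝ) (R : ℝ) (hH : Inv Γ H)
    (hS : Continuous (Function.uncurry S))
    (hSi : ∀ (γ : Γ) (z v : ℍ), S (γ • z) (γ • v) = S z v)
    (hR : ∀ z v, S z v ≠ 0 → dist z v ≤ R) : PKer Γ (aS H S) := by
  refine ⟨?_, ?_, ?_, ⟨2 * R, AKR_dist H S R hR⟩⟩
  · have := KER_contInt (X := ℍ × ℍ) (fun p v => H v * (S p.1 v * S p.2 v)) ?_ ?_
    · exact this
    · show Continuous fun q : (ℍ × ℍ) × ℍ => H q.2 * (S q.1.1 q.2 * S q.1.2 q.2)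
      refine (hH.1.comp continuous_snd).mul (Continuous.mul ?_ ?_)
      · exact hS.comp (by fun_prop : Continuous fun q : (ℍ × ℍ) × ℍ => (q.1.1, q.2))
      · exact hS.comp (by fun_prop : Continuous fun q : (ℍ × ℍ) × ℍ => (q.1.2, q.2))
    · intro p₀
      refine ⟨Metric.ball p₀ 1, Metric.ball_mem_nhds _ one_pos, Metric.closedBall p₀.1 (R + 1),
        isCompact_closedBall _ _, fun p hp x hx => ?_⟩
      by_contra hc
      have h3 := hR _ _ (left_ne_zero_of_mul (right_ne_zero_of_mul hc))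
      have h4 : dist p.1 p₀.1 < 1 := lt_of_le_of_lt (by simp [Prod.dist_eq]) (Metric.mem_ball.mp hp)
      apply hx
      rw [Metric.mem_closedBall]
      have := dist_triangle x p.1 p₀.1
      rw [dist_comm x p.1] at this
      linarith
  · intro z w
    unfold aS
    congr 1
    ext v
    ring
  · intro γ z w
    unfold aS
    rw [← INV.2.2.2.1 ℝ (γ : SL(2, ℝ)) (fun v => H v * (S (γ • z) v * S (γ • w) v))]
    congr 1
    ext v
    have e1 : H ((γ : SL(2, ℝ)) • v) = H v := hH.2 γ v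
    have e2 : S (γ • z) ((γ : SL(2, ℝ)) • v) = S z v := hSi γ z v
    have e3 : S (γ • w) ((γ : SL(2, ℝ)) • v) = S w v := hSi γ w v
    rw [e1, e2, e3]

theorem AKR (_hSRK : SRK_stmt) : AKR_stmt := by
  intro Γ F H S R hΓ hF hH hS hSi hR
  refine ⟨AKR_PKer Γ H S R hH hS hSi hR, AKR_dist H S R hR, ?_, ?_⟩
  · intro V _ _ _ ρ φ hφ
    obtain ⟨m, hm⟩ := hφ.bdd
    have hequiv : ∀ (γ : Γ) (v : ℍ), AKR_T S φ (γ • v) = ρ γ (AKR_T S φ v) := by
      intro γ v
      unfold AKR_T
      rw [← INV.2.2.2.1 V (γ : SL(2, ℝ)) (fun z => S z (γ • v) • φ z)]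
      have : ∀ w : ℍ, S ((γ : SL(2, ℝ)) • w) (γ • v) • φ ((γ : SL(2, ℝ)) • w) =
          (((ρ γ).toContinuousLinearEquiv : V →L[ℂ] V).restrictScalars ℝ) (S w v • φ w) := by
        intro w
        have e2 : φ ((γ : SL(2, ℝ)) • w) = ρ γ (φ w) := hφ.eqv γ w
        have e3 : S ((γ : SL(2, ℝ)) • w) (γ • v) = S w v := hSi γ w v
        rw [map_smul, e2, e3]
        rfl
      simp_rw [this]
      rw [ContinuousLinearMap.integral_comp_comm _ (AKR_i1 S hS R hR φ hφ.meas m hm v)]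
      rfl
    have hsym := AKR_sym Γ F hΓ hF (AKR_G H S φ) (AKR_Gm H hH.1 S hS R hR φ hφ.meas m hm)
      (fun K' hK' => AKR_Gb H hH.1 S hS R hR φ hφ.meas m hm K' hK')
      (fun γ z w => by
        unfold AKR_G
        rw [hH.2 γ w, hequiv γ w, hφ.eqv γ z, hSi γ z w, LinearIsometryEquiv.inner_map_map])
      R (fun z w hne => hR z w (by
        unfold AKR_G at hne
        exact right_ne_zero_of_mul (left_ne_zero_of_mul hne)))
    simp_rw [AKR_eL H hH.1 S hS R hR φ hφ.meas m hm]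
    rw [hsym]
    simp_rw [AKR_eR H S hS R hR φ hφ.meas m hm]
    rfl
  · intro f hf hm hfs
    obtain ⟨m, hm⟩ := hm
    have hφ : StronglyMeasurable fun z : ℍ => ((f z : ℝ) : ℂ) :=
      Complex.continuous_ofReal.comp_stronglyMeasurable hf
    have hm' : ∀ z, ‖((f z : ℝ) : ℂ)‖ ≤ m := fun z => by
      rw [Complex.norm_real]; exact hm z
    have e1 : ∀ z w : ℍ, f z * f w = (inner ℂ ((f z : ℝ) : ℂ) ((f w : ℝ) : ℂ)).re := by
      intro z w
      rw [RCLike.inner_apply]
      simp [mul_comm]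
    simp_rw [e1]
    simp_rw [AKR_eL H hH.1 S hS R hR (fun z : ℍ => ((f z : ℝ) : ℂ)) hφ m hm']
    rw [integral_integral_swap]
    · simp_rw [AKR_eR H S hS R hR (fun z : ℍ => ((f z : ℝ) : ℂ)) hφ m hm']
      refine integral_congr_ae (Eventually.of_forall fun v => ?_)
      simp only
      congr 1
      have e2 : AKR_T S (fun z : ℍ => ((f z : ℝ) : ℂ)) v = ((∫ z : ℍ, S z v * f z : ℝ) : ℂ) := by
        unfold AKR_T
        rw [← integral_complex_ofReal]
        refine integral_congr_ae (Eventually.of_forall fun z => ?_)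
        simp
      rw [e2, Complex.norm_real, Real.norm_eq_abs, sq_abs]
    · have hK : IsCompact (tsupport f ×ˢ Metric.cthickening R (tsupport f)) :=
        IsCompact.prod hfs (IsCompact.cthickening hfs)
      obtain ⟨C, hC0, hC⟩ := AKR_Gb H hH.1 S hS R hR (fun z : ℍ => ((f z : ℝ) : ℂ)) hφ m hm' _ hK
      refine AKR_integrable _ _
        (AKR_Gm H hH.1 S hS R hR (fun z : ℍ => ((f z : ℝ) : ℂ)) hφ m hm').aestronglyMeasurable _ hK C ?_ hC
      rintro ⟨z, v⟩ hp
      by_contra hne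
      apply hp
      have hne' : H v * S z v * (inner ℂ ((f z : ℝ) : ℂ)
        (AKR_T S (fun z : ℍ => ((f z : ℝ) : ℂ)) v)).re ≠ 0 := hne
      have h1 := hR _ _ (right_ne_zero_of_mul (left_ne_zero_of_mul hne'))
      have h2 : f z ≠ 0 := by
        intro h0
        apply right_ne_zero_of_mul hne'
        rw [h0]
        simp
      have h3 : z ∈ tsupport f := subset_tsupport f h2
      refine ⟨h3, Metric.mem_cthickening_of_dist_le v z R _ h3 ?_⟩
      rw [dist_comm]
      exact h1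

end Pool.Agent.QX
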